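import Pool.Agent.P8H18.RR.Stm2
import Pool.Agent.Y957.VK.Fin1
import Pool.Agent.Y751.VK.LamB
import Pool.Agent.Y751.VK.LamC

/-!
# Project AR (helper18), package PNTE: the prime number theorem with the classical error term

From the bound for the smoothed sums of `Λ - 1` in the region of Vinogradov and Korobov (library, project VK).
-/

set_option autoImplicit false

namespace Pool.Agent.P8H88.AR

open Filter Topology
open Pool.Agent.Y751.VK (RS aa unsmooth RS_bound aa_norm)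

/-- the smoothed sum, `v = s ^ 2` -/
theorem rs_small : ∃ s0 : ℝ, 1 ≤ s0 ∧ ∀ s : ℝ, s0 ≤ s →
    ‖RS 0 (s ^ 2)‖ ≤ 216 * Real.exp (s ^ 2) * Real.exp (-(s / 4)) := by
  obtain ⟨δ, K, T₀, hδ, hδ1, hK, hT₀, hb⟩ :=
    RS_bound Pool.Agent.Y957.VK.zeta_all Pool.Agent.Y957.VK.inv_all
  have ht := tendsto_rpow_mul_exp_neg_mul_atTop_nhds_zero (max K 4) (1 / 4) (by norm_num)
  obtain ⟨s1, hs1⟩ := eventually_atTop.1 (ht.eventually (ge_mem_nhds zero_lt_one))
  refine ⟨max (max 1 s1) (Real.log T₀), (le_max_left _ _).trans (le_max_left _ _), fun s hs => ?_⟩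
  have hs1' : 1 ≤ s := (le_max_left _ _).trans ((le_max_left _ _).trans hs)
  have hss : s1 ≤ s := (le_max_right _ _).trans ((le_max_left _ _).trans hs)
  have hsT : Real.log T₀ ≤ s := (le_max_right _ _).trans hs
  have hs0 : 0 < s := by linarith
  have hTs : T₀ ≤ Real.exp s := by
    rw [← Real.exp_log (show 0 < T₀ by linarith)]
    exact Real.exp_le_exp.2 hsT
  have h1 := hb 0 (s ^ 2) (Real.exp s) (Real.exp s) (by nlinarith) (Real.one_le_exp hs0.le) hTs
    (by simp)
  rw [Real.log_exp] at h1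
  have hp : s ^ (max K 4) ≤ Real.exp (s / 4) := by
    have h2 : s ^ (max K 4) * Real.exp (-(1 / 4) * s) ≤ 1 := hs1 s hss
    have h3 : Real.exp (-(1 / 4) * s) = (Real.exp (s / 4))⁻¹ := by
      rw [← Real.exp_neg]; congr 1; ring
    rw [h3, ← div_eq_mul_inv, div_le_one (Real.exp_pos _)] at h2
    exact h2
  have hA : s ^ K ≤ Real.exp (s / 4) :=
    (Real.rpow_le_rpow_of_exponent_le hs1' (le_max_left K 4)).trans hp
  have hB : (s ^ 2) ^ 2 ≤ Real.exp (s / 4) := by
    have h2 := (Real.rpow_le_rpow_of_exponent_le hs1' (le_max_right K 4)).trans hp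
    have h3 : s ^ (4 : ℝ) = (s ^ 2) ^ 2 := by
      rw [← pow_mul]
      exact_mod_cast Real.rpow_natCast s 4
    rwa [h3] at h2
  have hC : Real.exp (-(s ^ (δ - 1) / 2 * s ^ 2)) ≤ Real.exp (-(s / 2)) := by
    apply Real.exp_le_exp.2
    have h2 : s ^ (-1 : ℝ) ≤ s ^ (δ - 1) :=
      Real.rpow_le_rpow_of_exponent_le hs1' (by linarith)
    rw [Real.rpow_neg_one] at h2
    have h3 : s⁻¹ * s ^ 2 = s := by field_simp
    have h4 : s⁻¹ * s ^ 2 ≤ s ^ (δ - 1) * s ^ 2 := mul_le_mul_of_nonneg_right h2 (by positivity)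
    linarith
  have hD : s ^ K * Real.exp (-(s ^ (δ - 1) / 2 * s ^ 2)) ≤ Real.exp (-(s / 4)) := by
    calc s ^ K * Real.exp (-(s ^ (δ - 1) / 2 * s ^ 2)) ≤ Real.exp (s / 4) * Real.exp (-(s / 2)) :=
          mul_le_mul hA hC (Real.exp_pos _).le (Real.exp_pos _).le
      _ = Real.exp (-(s / 4)) := by rw [← Real.exp_add]; congr 1; ring
  have hE : s ^ K / Real.exp s ^ 2 ≤ Real.exp (-(s / 4)) := by
    rw [div_le_iff₀ (by positivity), ← Real.exp_nat_mul, ← Real.exp_add]
    refine hA.trans (Real.exp_le_exp.2 ?_)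
    push_cast
    linarith
  have hF : (s ^ 2) ^ 2 / Real.exp s ≤ Real.exp (-(s / 4)) := by
    rw [div_le_iff₀ (Real.exp_pos _), ← Real.exp_add]
    refine hB.trans (Real.exp_le_exp.2 ?_)
    linarith
  refine h1.trans ?_
  have h5 : 0 < Real.exp (s ^ 2) := Real.exp_pos _
  calc 72 * Real.exp (s ^ 2) * (s ^ K * Real.exp (-(s ^ (δ - 1) / 2 * s ^ 2)) +
        s ^ K / Real.exp s ^ 2 + (s ^ 2) ^ 2 / Real.exp s) ≤
        72 * Real.exp (s ^ 2) * (3 * Real.exp (-(s / 4))) :=
        mul_le_mul_of_nonneg_left (by linarith) (by positivity)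
    _ = _ := by ring

theorem aa_zero {n : ℕ} : aa 0 n = ((ArithmeticFunction.vonMangoldt n - 1 : ℝ) : ℂ) := by
  unfold aa
  simp

theorem sum_aa (x : ℕ) : ‖∑ n ∈ Finset.Icc 1 x, aa 0 n‖ =
    |∑ n ∈ Finset.Icc 1 x, ArithmeticFunction.vonMangoldt n - (x : ℝ)| := by
  have h1 : ∑ n ∈ Finset.Icc 1 x, aa 0 n =
      ((∑ n ∈ Finset.Icc 1 x, ArithmeticFunction.vonMangoldt n - (x : ℝ) : ℝ) : ℂ) := by
    rw [Finset.sum_congr rfl fun n _ => aa_zero, ← Complex.ofReal_sum, Finset.sum_sub_distrib]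
    simp
  rw [h1, Complex.norm_real, Real.norm_eq_abs]

/-- the package PNTE -/
theorem pnte : Pool.Agent.P8H18.AR.S_PNTE (1 / 2) := by
  obtain ⟨s0, hs0, hrs⟩ := rs_small
  have ht := tendsto_rpow_mul_exp_neg_mul_atTop_nhds_zero 2 (1 / 16) (by norm_num)
  obtain ⟨s2, hs2⟩ := eventually_atTop.1 (ht.eventually (ge_mem_nhds zero_lt_one))
  set S : ℝ := max s0 s2 with hS
  have hS1 : 1 ≤ S := hs0.trans (le_max_left _ _)
  refine ⟨1 / 16, 1304 + (S ^ 2 + 1) * Real.exp S, by norm_num, by positivity, fun x hx => ?_⟩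
  have hx0 : (0 : ℝ) < x := by exact_mod_cast hx
  have hx1 : (1 : ℝ) ≤ x := by exact_mod_cast hx
  set L := Real.log x with hL
  have hL0 : 0 ≤ L := Real.log_nonneg hx1
  set s := √L with hs
  have hss : s ^ 2 = L := Real.sq_sqrt hL0
  have hsn : 0 ≤ s := Real.sqrt_nonneg _
  have hpow : L ^ (1 / 2 : ℝ) = s := by rw [hs, Real.sqrt_eq_rpow]
  rw [hpow, ← sum_aa]
  have hE0 : 0 < Real.exp (-(1 / 16 * s)) := Real.exp_pos _
  rcases le_or_gt S s with hSs | hSs
  · -- large values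
    have hs1 : 1 ≤ s := hS1.trans hSs
    have hLe : Real.exp L = x := Real.exp_log hx0
    have k1 : ‖RS 0 L‖ ≤ 648 * x * Real.exp (-(s / 4)) := by
      have h1 := hrs s ((le_max_left _ _).trans hSs)
      rw [hss, hLe] at h1
      refine h1.trans ?_
      have : 0 ≤ x * Real.exp (-(s / 4)) := by positivity
      nlinarith
    obtain ⟨h, hh⟩ : ∃ h : ℝ, h = Real.exp (-(s / 8)) := ⟨_, rfl⟩
    have hh0 : 0 < h := by rw [hh]; exact Real.exp_pos _
    have hh1 : h ≤ 1 := by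
      rw [hh]
      exact Real.exp_le_one_iff.2 (by linarith)
    have k2 : ‖RS 0 (L + h)‖ ≤ 648 * x * Real.exp (-(s / 4)) := by
      obtain ⟨s', hs'⟩ : ∃ s' : ℝ, s' = √(L + h) := ⟨_, rfl⟩
      have hss' : s' ^ 2 = L + h := by rw [hs', Real.sq_sqrt (by linarith)]
      have hle : s ≤ s' := by rw [hs, hs']; exact Real.sqrt_le_sqrt (by linarith)
      have h1 := hrs s' ((le_max_left _ _).trans (hSs.trans hle))
      rw [hss', Real.exp_add, hLe] at h1
      refine h1.trans ?_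
      have h2 : Real.exp h ≤ 3 := by
        have := Real.exp_le_exp.2 hh1
        linarith [Real.exp_one_lt_d9]
      have h3 : Real.exp (-(s' / 4)) ≤ Real.exp (-(s / 4)) := Real.exp_le_exp.2 (by linarith)
      calc 216 * (x * Real.exp h) * Real.exp (-(s' / 4)) ≤
          216 * (x * 3) * Real.exp (-(s / 4)) := by gcongr
        _ = _ := by ring
    have h1 := unsmooth 0 hx hh0 hh1
    refine h1.trans ?_
    have h2 : (‖RS 0 (L + h)‖ + ‖RS 0 L‖) / h ≤ 1296 * x * Real.exp (-(s / 8)) := by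
      have h12 : Real.exp (-(s / 4)) = h * h := by
        rw [hh, ← Real.exp_add]; congr 1; ring
      rw [h12] at k1 k2
      rw [div_le_iff₀ hh0, ← hh]
      linarith
    have h3 : s ^ 2 ≤ Real.exp (s / 16) := by
      have h4 : s ^ (2 : ℝ) * Real.exp (-(1 / 16) * s) ≤ 1 := hs2 s ((le_max_right _ _).trans hSs)
      have h5 : Real.exp (-(1 / 16) * s) = (Real.exp (s / 16))⁻¹ := by
        rw [← Real.exp_neg]; congr 1; ring
      rw [h5, ← div_eq_mul_inv, div_le_one (Real.exp_pos _), Real.rpow_two] at h4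
      exact h4
    have h6 : 2 * h * x * (L + 3) ≤ 8 * x * Real.exp (-(1 / 16 * s)) := by
      have h7 : L + 3 ≤ 4 * Real.exp (s / 16) := by
        rw [← hss]
        nlinarith
      have h8 : Real.exp (-(s / 8)) * Real.exp (s / 16) = Real.exp (-(1 / 16 * s)) := by
        rw [← Real.exp_add]; congr 1; ring
      calc 2 * h * x * (L + 3) ≤ 2 * h * x * (4 * Real.exp (s / 16)) :=
            mul_le_mul_of_nonneg_left h7 (by positivity)
        _ = 8 * x * (Real.exp (-(s / 8)) * Real.exp (s / 16)) := by rw [hh]; ring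
        _ = _ := by rw [h8]
    have h9 : Real.exp (-(s / 8)) ≤ Real.exp (-(1 / 16 * s)) := Real.exp_le_exp.2 (by linarith)
    have h10 : 0 ≤ (S ^ 2 + 1) * Real.exp S * x * Real.exp (-(1 / 16 * s)) := by positivity
    have h11 : 1296 * x * Real.exp (-(s / 8)) ≤ 1296 * x * Real.exp (-(1 / 16 * s)) :=
      mul_le_mul_of_nonneg_left h9 (by positivity)
    nlinarith
  · -- small values
    have h1 : ‖∑ n ∈ Finset.Icc 1 x, aa 0 n‖ ≤ x * (L + 1) := by
      refine (norm_sum_le _ _).trans ?_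
      have h2 : ∀ n ∈ Finset.Icc 1 x, ‖aa 0 n‖ ≤ L + 1 := by
        intro n hn
        rw [Finset.mem_Icc] at hn
        have hn0 : (0 : ℝ) < n := by exact_mod_cast hn.1
        refine (aa_norm 0 (by omega)).trans ?_
        have : Real.log n ≤ L := Real.log_le_log hn0 (by exact_mod_cast hn.2)
        linarith
      refine (Finset.sum_le_card_nsmul _ _ _ h2).trans (le_of_eq ?_)
      rw [Nat.card_Icc, Nat.add_sub_cancel, nsmul_eq_mul]
    refine h1.trans ?_
    have h3 : L ≤ S ^ 2 := by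
      rw [← hss]
      nlinarith
    have h4 : 1 ≤ Real.exp S * Real.exp (-(1 / 16 * s)) := by
      rw [← Real.exp_add]
      exact Real.one_le_exp (by linarith)
    have h5 : x * (L + 1) ≤ (S ^ 2 + 1) * x * (Real.exp S * Real.exp (-(1 / 16 * s))) := by
      calc x * (L + 1) ≤ x * (S ^ 2 + 1) := by gcongr
        _ = (S ^ 2 + 1) * x * 1 := by ring
        _ ≤ _ := mul_le_mul_of_nonneg_left h4 (by positivity)
    refine h5.trans ?_
    have h6 : 0 ≤ 1304 * x * Real.exp (-(1 / 16 * s)) := by positivity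
    nlinarith

end Pool.Agent.P8H88.AR
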